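import Mathlib
import Pool.Agent.helper12.FI.DefsQ
import Pool.Agent.helper83.FI.SpecR

/-!
# Project fi (MP_baa4d7_al), block Q2: definitions

`rsk K z` (restriction of `z` to `K`, extended by zero) and `plv n c a = ∑_{k < n} c k • a ^ (k + 1)` are those of
`helper83/FI/SpecR`.
-/

set_option autoImplicit false

namespace Pool.Agent.FI

open Pool.Agent.helper58.DC Pool.Agent.DI Pool.Agent.GR Pool.Agent.OB

section

variable {G : Type} [Group G]

/-- Congruence of functions modulo the maximal ideal of the local ring. -/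
def EqmF (M : Ideal (integralClosure ℤ ℂ)) (z w : G → ℂ) : Prop := ∀ x, InM M (z x - w x)

/-- The idempotent of the block `Bl M K θ` of `K`. -/
noncomputable abbrev eBl (M : Ideal (integralClosure ℤ ℂ)) (K : Subgroup G) (θ : G → ℂ) : G → ℂ :=
  eS K (Bl M K θ)

/-- The function `a` of block Q (first approximation of the idempotent `i`). -/
structure QA (M : Ideal (integralClosure ℤ ℂ)) (D L : Subgroup G) (θ a : G → ℂ) : Prop where
  sup : ∀ y, y ∉ L → a y = 0
  int : ∀ y, IntAt M (a y)
  inv : Inv (cz D) a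
  left : cv (eBl M (cz D) θ) a = a
  right : cv a (eBl M (cz D) θ) = a
  blk : cv a (eBl M L θ) = a
  cen : EqmF M (rsk (cz D) a) (eBl M (cz D) θ)
  loc : ∀ u ∈ D, EqmF M (cv (rsk (Cz L u) a) (eBl M (Cz L u) θ)) (rsk (Cz L u) a)

/-- The idempotent `i` of block Q: it is invariant under `TT M D θ ⊓ L`, a part of the block idempotent of `L`, congruent
to the block idempotent `e_D` of `cz D` on `cz D`, and congruent on every `C_L(u)`, `u ∈ D`, to an idempotent `j` which is
a part of the block idempotent of `C_L(u)`. -/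
structure QI (M : Ideal (integralClosure ℤ ℂ)) (D L : Subgroup G) (θ i : G → ℂ) : Prop where
  idm : Idm M L i
  inv : Inv (TT M D θ ⊓ L) i
  left : cv (eBl M (cz D) θ) i = i
  right : cv i (eBl M (cz D) θ) = i
  blk : cv i (eBl M L θ) = i
  cen : ∀ y ∈ cz D, InM M (i y - eBl M (cz D) θ y)
  loc : ∀ K : Subgroup G, (∃ u ∈ D, K = Cz L u) → ∃ j : G → ℂ, Idm M K j ∧ Inv (cz D) j ∧
    cv (eBl M (cz D) θ) j = j ∧ cv j (eBl M K θ) = j ∧ ∀ y ∈ K, InM M (i y - j y)

end

end Pool.Agent.FI
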