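import Mathlib
import Pool.Agent.helper1.FI.DefsQ2
import Pool.Agent.helper59.FI.SpecB
import Pool.Agent.helper58.FI.SpecC
import Pool.Agent.helper22.FI.SpecA

/-!
# Project fi (MP_baa4d7_al), BLOCK Q2: the idempotent `i`, the integers `n u`, the heights

RULES FOR ROWS. File `Pool/Agent/<seat>/FIB/XXX.lean` (directory `FIB`) with

  import Pool.Agent.helper1.FI.SpecQ2
  set_option autoImplicit false
  namespace Pool.Agent.FI
  open Pool.Agent.helper58.DC Pool.Agent.DI Pool.Agent.GR Pool.Agent.OB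
  theorem XXX (hYYY : YYY_stmt) ... : XXX_stmt := ...
  end Pool.Agent.FI

auxiliary lemmas prefixed `XXX_`, no sorry, no double quotes in the file, no `convert`, no `congr!`. The rows named in the
docstring are hypotheses; rows of GR (`CVF CCI EXP IDM SCH EIN ..`), DI (`B2 C3 C4 ..`), DC, and the rows of `SpecR` (`BRQ BRK
PLF IDP SA2 EVM RR1 TRP ..`), `SpecA` (`BET ALP GDC TPR TTF CJG ..`), `SpecB` (`EQR FWB IVS ..`), `SpecC` (`HTZ DOR DDT FEQ ..`)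
may be added as further hypotheses (no circles: a row of this file may use only rows of this file which stand BEFORE it).

PROVED and ready to use: `Pool/Agent/helper1/FI/BaseQ2.lean` (import it; calculus of `EqmF`, `rsk`, `cv`, `Inv`, `eBl`, the
inclusions `D ≤ cz D ≤ cz P`, ...), `Pool/Agent/helper59/FI/Base.lean` (`IrrOn_*`, `TRNb`, `SBIb`, `cut`, `SB_conj`, `cz_le_TT`,
`le_cz_of_com`, `cz_mono`, `cz_sup_zpowers`, ...), `Pool/Agent/helper12/FI/Defs.lean`, `Pool/Agent/helper83/GR/Ari.lean`.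

NOTATION. `eBl M K θ = eS K (Bl M K θ)` (idempotent of the block `b(θ)^K`), `EqmF M z w`: all values of `z - w` are `InM`;
`rsk K z`: restriction of `z` to `K`; `cv` product, `cvp a k` power, `plv n c a` polynomial without constant term;
`Cz L u = L ⊓ centralizer {u}`; `TT M D θ = N_G(D, b(θ))`; `QA`, `QI`: `DefsQ2`. In the proofs `C = cz D`, `L = cz P`,
`e = eBl M C θ`, `f = eBl M L θ`, `h_u = eBl M (Cz L u) θ`, `≡` means `EqmF M`, `z * w` means `cv z w`. `≡` is compatible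
with sums, with multiplication by an `IntAt` scalar and with products of `IntAt` functions (BaseQ2: `EqmF.cv` etc.).
A function `z` supported on `C` and a function `a` with `Inv C a` commute: `cv z a = cv a z` (BaseQ2: `cv_comm_Inv`).
-/

set_option autoImplicit false

namespace Pool.Agent.FI

open Pool.Agent.helper58.DC Pool.Agent.DI Pool.Agent.GR Pool.Agent.OB

/-! ## 1. General facts -/

/-- **QAV** (short to medium; only Mathlib and Ari). Averages. Let `F` be constant on the left cosets `t C` in `T`. Proof: `∑_{t ∈ T} F t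
= |C| * ∑_q F (q.out)` over the cosets `q` of `C` in `T` (for instance: `X = T ⧸ C.subgroupOf T`, `Subgroup.groupEquivQuotientProdSubgroup`,
or choose representatives). So `(∑ F) / |C|` is a sum of values of `F`: this is the first and second item (`IntAt.sum`, `InM.sum`).
`|T| = |C| * C.relIndex T` (`Subgroup.card_mul_index`-type) and `1 / C.relIndex T` is `IntAt` if `p` does not divide it (`InM.natCast`, `IntAt.inv`). -/
def QAV_stmt : Prop :=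
  ∀ (p : ℕ) (M : Ideal (integralClosure ℤ ℂ)), Setup p M → ∀ (G : Type) [Group G] [Finite G]
    (C T : Subgroup G), C ≤ T → ∀ F : G → ℂ, (∀ t ∈ T, ∀ c ∈ C, F (t * c) = F t) →
    ((∀ t ∈ T, IntAt M (F t)) → IntAt M ((∑ᶠ t ∈ (T : Set G), F t) / Nat.card C)) ∧
    ((∀ t ∈ T, InM M (F t)) → InM M ((∑ᶠ t ∈ (T : Set G), F t) / Nat.card C)) ∧
    (¬ p ∣ C.relIndex T → (∀ t ∈ T, IntAt M (F t)) → IntAt M ((∑ᶠ t ∈ (T : Set G), F t) / Nat.card T)) ∧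
    (¬ p ∣ C.relIndex T → (∀ t ∈ T, InM M (F t)) → InM M ((∑ᶠ t ∈ (T : Set G), F t) / Nat.card T))

/-- **QUN** (short; only Mathlib and Ari). Rational units. Proof: `a = p^v a'`, `b = p^w b'`, `a'`, `b'` prime to `p`, so `a'`, `b'`, `a' / b'`,
`b' / a'` are `IntAt` and not `InM` (`InM.natCast`, `IntAt.inv`, `InM.or`). `v = w`: `a / b = a' / b'`. `w < v`: `a / b` is `p` times an
`IntAt`, so `InM`. `v < w`: `b / a` is `InM`; if `a / b` were `IntAt` then `1` would be `InM`. -/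
def QUN_stmt : Prop :=
  ∀ (p : ℕ) (M : Ideal (integralClosure ℤ ℂ)), Setup p M → ∀ a b : ℕ, a ≠ 0 → b ≠ 0 →
    ((IntAt M ((a : ℂ) / b) ∧ ¬ InM M ((a : ℂ) / b)) ↔ padicValNat p a = padicValNat p b)

/-- **QEB** (short to medium; from CJG, CVF). Transport of block idempotents by `t ∈ TT M D θ`. Proof: `H' = cjS t H`; `cz D = cjS t (cz D) ≤ H'` (`t ∈ nz D`).
`Bl M H' (cjF t θ) = cjF t '' Bl M H θ` (CJG), and `Bl M H' (cjF t θ) = Bl M H' θ` because `SB M (cz D) (cjF t θ) θ` (definition of `TT`)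
gives `SB M H' (cjF t θ) θ` (`TRNb` of helper59/FI/Base: both functions vanish outside `cz D`). The map `cjF t` is injective,
`(cjF t ψ) (t y t⁻¹) = ψ y`, `(cjF t ψ) 1 = ψ 1`, `|H'| = |H|`; so `eS H' (Bl M H' θ) (t y t⁻¹) = eS H (Bl M H θ) y` (`finsum_mem_image`). Second item: substitute
`x ↦ t x t⁻¹` in `cv`. -/
def QEB_stmt : Prop :=
  ∀ (G : Type) [Group G] [Finite G] (M : Ideal (integralClosure ℤ ℂ)) (D : Subgroup G) (θ : G → ℂ),
    (∀ x, x ∉ cz D → θ x = 0) → ∀ t : G,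
    (t ∈ TT M D θ → ∀ H : Subgroup G, cz D ≤ H → ∀ y, eBl M (cjS t H) θ (t * y * t⁻¹) = eBl M H θ y) ∧
    ∀ z w : G → ℂ, cv (fun y => z (t⁻¹ * y * t)) (fun y => w (t⁻¹ * y * t)) =
      fun y => cv z w (t⁻¹ * y * t)

/-- **QCG** (short; from ALP, GDC, TPR). The character `θ` of `cz D`. Proof: `DefL p M ⊤ χ D x` and `SB M ⊤ θ χ` (TPR, from `Rt.dfa`, `Rt.ind`); ALP for
`L = ⊤`, `ψ = χ` (`⊤ ⊓ cz D = cz D`) gives `w` with `DefL p M (cz D) θ D w`, and GDC for `L = cz D`, `ψ = θ` the last item. -/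
def QCG_stmt : Prop :=
  ∀ (p : ℕ) (M : Ideal (integralClosure ℤ ℂ)), Setup p M → ∀ (G : Type) [Group G] [Finite G]
    (D : Subgroup G) (x : G) (θ χ : G → ℂ), Rt p M D x θ χ →
    (∃ w ∈ cz D, PReg p w ∧ ¬ InM M (θ w)) ∧
    (∃ n k : ℕ, θ 1 = n ∧ n * Nat.card D * k = Nat.card (cz D) ∧ ¬ p ∣ k) ∧ Good p M D (cz D) θ

/-! ## 2. The function `a` -/

/-- **QA0** (short to medium; from EQR, IDM, EIN, CVF, CCI, EXP). Proof: let `S = BR M H θ (cz D)` (`= {η ∈ IrrOn (cz D) | SB M H η θ}`). EQR of SpecB with `L = H`, `Q = D`,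
`φ = θ` (`H ⊓ cz D = cz D`, `BR M H θ H = Bl M H θ`): `rsk (cz D) (eBl M H θ) ≡ eS (cz D) S` (outside of `cz D` both are `0`). `Bl M (cz D) θ ⊆ S` by `TRNb` (helper59/FI/Base).
So `cv e (eS (cz D) S) = e`: both are class functions of `cz D` (CVF, IDM) and `cc ψ` of both is `1` for `ψ ∈ Bl M (cz D) θ` and `0` for the other `ψ ∈ IrrOn (cz D)` (CCI (2),
IDM); EXP. Multiply the congruence by `e` (values `IntAt`: EIN; `EqmF.cv`). -/
def QA0_stmt : Prop :=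
  ∀ (p : ℕ) (M : Ideal (integralClosure ℤ ℂ)), Setup p M → ∀ (G : Type) [Group G] [Finite G]
    (D H : Subgroup G), IsPGroup p D → (∀ c ∈ D, ∀ d ∈ D, c * d = d * c) → cz D ≤ H →
    ∀ θ ∈ IrrOn (cz D), EqmF M (cv (eBl M (cz D) θ) (rsk (cz D) (eBl M H θ))) (eBl M (cz D) θ)

/-- **QA1** (medium; from QA0, BRQ, CVF, IDM, EIN). The product of the `h_u`, `u ∈ l`. Proof: induction over the list. `l = []`: `b = dl` (`rsk C dl = dl`, `e * dl = e`). Let `b` be the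
function for `l` and `v ∈ D`, `b' = b * h_v`. `h_v` is supported on `Cz L v ≤ L`, `IntAt` (EIN), invariant under `Cz L v ≥ C`, idempotent (IDM). (1) Restriction to `C`: by BRQ for the `p`-group
`D` (`L ⊓ cz D = C`, `b` and `h_v` are invariant under `D ≤ C`) `rsk C b' ≡ rsk C b * rsk C h_v`, so `e * rsk C b' ≡ e * rsk C b * rsk C h_v ≡ e * rsk C h_v ≡ e` (QA0 for `H = Cz L v`). (2) Let
`u ∈ D`, `K = Cz L u = L ⊓ cz (zpowers u)`: by BRQ for `zpowers u` `rsk K b' ≡ rsk K b * rsk K h_v`. If `u ∈ l`: `rsk K b * h_u ≡ rsk K b`, and `h_u` commutes with the functions supported on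
`K` (CVF), so `rsk K b' * h_u ≡ rsk K b * rsk K h_v * h_u = rsk K b * h_u * rsk K h_v ≡ rsk K b * rsk K h_v ≡ rsk K b'`. If `u = v`: `rsk K h_v = h_v = h_v * h_v`, so `rsk K b' * h_v ≡ rsk K b * h_v * h_v
= rsk K b * h_v ≡ rsk K b'`. -/
def QA1_stmt : Prop :=
  ∀ (p : ℕ) (M : Ideal (integralClosure ℤ ℂ)), Setup p M → ∀ (G : Type) [Group G] [Finite G]
    (D : Subgroup G) (x : G) (θ χ : G → ℂ), Rt p M D x θ χ → ∀ P ≤ D, ∀ l : List G, (∀ u ∈ l, u ∈ D) →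
    ∃ b : G → ℂ, (∀ y, y ∉ cz P → b y = 0) ∧ (∀ y, IntAt M (b y)) ∧ Inv (cz D) b ∧
    EqmF M (cv (eBl M (cz D) θ) (rsk (cz D) b)) (eBl M (cz D) θ) ∧
    ∀ u ∈ l, EqmF M (cv (rsk (Cz (cz P) u) b) (eBl M (Cz (cz P) u) θ)) (rsk (Cz (cz P) u) b)

/-- **QA2** (short to medium; from QA1, QA0, BRQ, CVF, IDM, EIN). Proof: let `b` be from QA1 for a list of all elements of `D`, `e = eBl M C θ`, `f = eBl M L θ` (idempotent, `IntAt`, class
functions of `C`, `L`, supported on `C ≤ L`; all are invariant under `C`), `a = e * f * b * e`. `left`, `right`: `e * e = e`. `blk`: `f` commutes with the functions supported on `L` (CVF) and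
`f * f = f`. Restrictions: for a subgroup `K ≥ C` and `e` supported on `C`: `rsk K (e * z) = e * rsk K z`, `rsk K (z * e) = rsk K z * e` (BaseQ2), so `rsk K a = e * rsk K (f * b) * e`, and
`rsk K (f * b) ≡ rsk K f * rsk K b` by BRQ for `K = C` (`p`-group `D`) and `K = Cz L u` (`zpowers u`). `cen`: `rsk C a ≡ e * rsk C f * rsk C b * e ≡ e * rsk C b * e ≡ e * e = e` (QA0 for `H = L`, QA1). `loc`: `h_u`
commutes with `e` and with all functions supported on `Cz L u` (CVF), and `rsk K b * h_u ≡ rsk K b`. -/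
def QA2_stmt : Prop :=
  ∀ (p : ℕ) (M : Ideal (integralClosure ℤ ℂ)), Setup p M → ∀ (G : Type) [Group G] [Finite G]
    (D : Subgroup G) (x : G) (θ χ : G → ℂ), Rt p M D x θ χ → ∀ P ≤ D, ∃ a : G → ℂ, QA M D (cz P) θ a

/-- **QA3** (short to medium; from QEB, TTF, CVF). Conjugates of `a`. Proof: let `a^t y = a (t⁻¹ y t)`. `t` normalises `D`, `C = cz D`, `L = cz P`. By QEB (second item) `(z * w)^t = z^t * w^t`, and by its
first item `e^t = e` (`H = C`, `cjS t C = C`), `f^t = f` (`H = L`, `t ∈ L`), and `h_u = (h_{u'})^t` for `u' = t⁻¹ u t ∈ D` (`H = Cz L u'`, `cjS t H = Cz L u`). So `left`, `right`, `blk` for `a^t` follow from those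
for `a`; `inv`: `C` is normalised by `t`. `cen`: `rsk C (a^t) = (rsk C a)^t ≡ e^t = e`. `loc`: `rsk (Cz L u) (a^t) = (rsk (Cz L u') a)^t` and multiply by `h_u = (h_{u'})^t`. -/
def QA3_stmt : Prop :=
  ∀ (G : Type) [Group G] [Finite G] (M : Ideal (integralClosure ℤ ℂ)) (D P : Subgroup G),
    P ≤ D → (∀ c ∈ D, ∀ d ∈ D, c * d = d * c) → ∀ θ ∈ IrrOn (cz D), ∀ a : G → ℂ, QA M D (cz P) θ a →
    ∀ t ∈ TT M D θ ⊓ cz P, QA M D (cz P) θ (fun y => a (t⁻¹ * y * t))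

/-- **QAA** (medium; from QA2, QA3, QAV, BET, CVF). Proof: `a₀` from QA2, `T = TT M D θ ⊓ L`, `a y = (∑_{t ∈ T} a₀ (t⁻¹ y t)) / |T|`. `p` does not divide `C.relIndex T` (it divides `C.relIndex (TT M D θ)`, BET). For
fixed `y` the function `t ↦ a₀ (t⁻¹ y t)` is constant on the cosets `t C` (`a₀` is invariant under `C`), and so are `t ↦ (rsk C (a₀^t) - e) y` and `t ↦ (rsk K (a₀^t) * h_u - rsk K (a₀^t)) y`: so QAV (items 3, 4)
gives `int`, `cen`, `loc` from QA3 for every `t` (all operations are linear: `rsk`, `cv`; `∑_{t ∈ T} e / |T| = e`). `left`, `right`, `blk`, `sup` are linear. `Inv T a`: replace `t` by `s t` in the sum; `C ≤ T` (`cz_le_TT`),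
so also `inv`. -/
def QAA_stmt : Prop :=
  ∀ (p : ℕ) (M : Ideal (integralClosure ℤ ℂ)), Setup p M → ∀ (G : Type) [Group G] [Finite G]
    (D : Subgroup G) (x : G) (θ χ : G → ℂ), Rt p M D x θ χ → ∀ P ≤ D,
    ∃ a : G → ℂ, QA M D (cz P) θ a ∧ Inv (TT M D θ ⊓ cz P) a

/-! ## 3. The idempotent `i` -/

/-- **QD1** (short to medium; from BRQ, BRK, PLF, CVF). Restriction of `i = plv n c a` to `K`, if `rsk K a ≡ e`, `e` idempotent. Proof: `i`, `cvp a N` are supported on `H`, `IntAt`, invariant under `Q` (PLF; CVF). By BRK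
`rsk K i ≡ plv n c (rsk K a) ≡ plv n c e = s • e`, `s = ∑_{k<n} c k` (PLF, last item; `EqmF` is compatible with `cvp`, `plv`: BaseQ2 `EqmF.plv`) and `rsk K (cvp a N) ≡ cvp e N = e` (`N ≥ 1`). By BRQ
`e ≡ rsk K (cvp a N) ≡ rsk K (cvp a N * i) ≡ e * (s • e) = s • e ≡ rsk K i`. -/
def QD1_stmt : Prop :=
  ∀ (p : ℕ) (M : Ideal (integralClosure ℤ ℂ)), Setup p M → ∀ (G : Type) [Group G] [Finite G]
    (H Q K : Subgroup G), IsPGroup p Q → K = H ⊓ cz Q → ∀ a e : G → ℂ, (∀ y, y ∉ H → a y = 0) →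
    (∀ y, IntAt M (a y)) → Inv Q a → (∀ y, IntAt M (e y)) → cv e e = e → EqmF M (rsk K a) e →
    ∀ (n : ℕ) (c : ℕ → ℂ) (N : ℕ), (∀ k, IntAt M (c k)) → 1 ≤ N →
    EqmF M (cvp a N) (cv (cvp a N) (plv n c a)) → EqmF M (rsk K (plv n c a)) e

/-- **QD2** (medium; from IDP, SA2, BRQ, BRK, PLF, CVF). Restriction of `i = plv n c a` to `K`, if `rsk K a ≡ rsk K a * h`. Proof: let `r = rsk K a`, `b = r * h`: supported on `K`, `IntAt`, `b ≡ r`. IDP for `b` (group `K`): `j = plv n' c' b`,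
`Idm M K j`, `cvp b N ≡ cvp b N * j` for `N ≥ N₁`. `Inv C j`: `a`, `h` are invariant under `C ≤ K`. `b * h = b`, so `j * h = j` (PLF). `e * r = rsk K (e * a) = r` (`e` is supported on `C ≤ K`, BaseQ2), so `e * b = b` and `e * j = j` (PLF).
Let `i' = plv n c b`. By BRK `rsk K i ≡ plv n c r ≡ i'` and `rsk K (cvp a N) ≡ cvp r N ≡ cvp b N` (`N ≥ 1`; BaseQ2 `EqmF.plv`, `EqmF.cvp`). By BRQ `i' * i' ≡ rsk K i * rsk K i ≡ rsk K (i * i) = rsk K i ≡ i'` and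
`cvp b N ≡ rsk K (cvp a N) ≡ rsk K (cvp a N * i) ≡ cvp b N * i'`. So SA2 for `b`, `i'`, `j` and a large `N` gives `i' ≡ j`, hence `rsk K i ≡ j`. -/
def QD2_stmt : Prop :=
  ∀ (p : ℕ) (M : Ideal (integralClosure ℤ ℂ)), Setup p M → ∀ (G : Type) [Group G] [Finite G]
    (H Q K C : Subgroup G), IsPGroup p Q → K = H ⊓ cz Q → C ≤ K → ∀ a e h : G → ℂ,
    (∀ y, y ∉ H → a y = 0) → (∀ y, IntAt M (a y)) → Inv Q a → Inv C a → (∀ y, y ∉ C → e y = 0) →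
    cv e a = a → CF K h → (∀ y, IntAt M (h y)) → cv h h = h → EqmF M (cv (rsk K a) h) (rsk K a) →
    ∀ (n : ℕ) (c : ℕ → ℂ) (N₀ : ℕ), (∀ k, IntAt M (c k)) →
    cv (plv n c a) (plv n c a) = plv n c a →
    (∀ N ≥ N₀, EqmF M (cvp a N) (cv (cvp a N) (plv n c a))) →
    ∃ j : G → ℂ, Idm M K j ∧ Inv C j ∧ cv e j = j ∧ cv j h = j ∧
      ∀ y ∈ K, InM M (plv n c a y - j y)

/-- **QID** (short to medium; from QAA, QD1, QD2, IDP, PLF, IDM, EIN). THE IDEMPOTENT. Proof: `a` from QAA, `i = plv n c a` from IDP (group `L`). `inv`, `left`, `right`, `blk`: PLF. `cen`: QD1 with `H = L`, `Q = D`, `K = C` (`L ⊓ cz D = C`),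
`e = eBl M C θ`. `loc`: for `K = Cz L u = L ⊓ cz (zpowers u)`, `u ∈ D`: QD2 with `Q = zpowers u`, `C = cz D`, `h = eBl M K θ` (IDM, EIN with `BC_Bl` of BaseQ2). -/
def QID_stmt : Prop :=
  ∀ (p : ℕ) (M : Ideal (integralClosure ℤ ℂ)), Setup p M → ∀ (G : Type) [Group G] [Finite G]
    (D : Subgroup G) (x : G) (θ χ : G → ℂ), Rt p M D x θ χ → ∀ P ≤ D, ∃ i : G → ℂ, QI M D (cz P) θ i

/-! ## 4. Heights -/

/-- **QH0** (short; only B2 of DI). Proof: `q = trL K D (fun y => j (y * w⁻¹))`, `trL K D a y = (∑_{t ∈ K} a (t⁻¹ y t)) / |D|`. `ψ 1 * |D| * cc ψ q = ∑_{t ∈ K} ∑_y j (t⁻¹ y t w⁻¹) * ψ y`, and the inner sum is (`y = t v t⁻¹`, `ψ` is a class function of `K`)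
`∑_v j (v w⁻¹) * ψ v = ∑_x j x * ψ (x w) = ∑_x j x * ψ (w x) = ev ψ j w` (for `x ∉ K` `j x = 0`; for `x ∈ K` `x w = w⁻¹ (w x) w`). -/
def QH0_stmt : Prop :=
  ∀ (G : Type) [Group G] [Finite G] (D K : Subgroup G), ∀ w ∈ K, ∀ j : G → ℂ, (∀ y, y ∉ K → j y = 0) →
    ∀ ψ ∈ IrrOn K, cc ψ (trL K D (fun y => j (y * w⁻¹))) =
      (Nat.card K : ℂ) / Nat.card D * (ev ψ j w / ψ 1)

/-- **QH1** (medium; from FWB, QAV, FWV, CCI, IDM). Proof: `C = cz D`, `e = eBl M C θ`, `a y = j (y w⁻¹)`: `IntAt`, supported on `K`, invariant under `D` (`d w = w d`), `q = trL K D a`. FWB of SpecB (`L = K`, `R = D`): `CF K q`, `IntAt`, and for `S = D`, `y ∈ C` (`D ≤ Cz K y`; for finite `D`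
the condition `∀ d ∈ D, t⁻¹ d t ∈ D` means `t ∈ nz D`) `InM M (q y - (∑_{t ∈ N} a (t⁻¹ y t)) / |D|)`, `N = K ⊓ nz D`. Let `q' y = (∑_{t ∈ N} e (t⁻¹ y t w⁻¹)) / |D|` for `y ∈ C`, `0` for `y ∉ C`. For `t ∈ N`, `y ∈ C` also `t⁻¹ y t w⁻¹ ∈ C`, where `j - e` is `InM`; the difference
`j (t⁻¹ y t w⁻¹) - e (t⁻¹ y t w⁻¹)` is constant on the cosets `t D`, so by QAV (second item) `rsk C q ≡ q'`. Both are invariant under `C` (replace `t` by `c t`), so `cc θ q = cc θ (rsk C q)` is modulo `InM` equal to `cc θ q'` (CCI (3)). `cc θ q' = |D|⁻¹ ∑_{t ∈ N} cc θ (y ↦ e (t⁻¹ y t w⁻¹))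
= |D|⁻¹ ∑_{t ∈ N} cc (cjF t⁻¹ θ) (y ↦ e (y w⁻¹))` (`cc_funMap`), `cjF t⁻¹ θ ∈ IrrOn C`, and by FWV this is `cc (cjF t⁻¹ θ) e * (θ (t w t⁻¹) / θ 1)`; by IDM it is `0` if `cjF t⁻¹ θ ∉ Bl M C θ`, i.e. `t ∉ TT M D θ`, and if `t ∈ TT M D θ` it is `θ w / θ 1`
(`Good.reg` for `cjF t⁻¹ θ`, `θ ∈ Bl M C θ`, `w` `p`-regular: `θ (t w t⁻¹) = θ w`). The number of these `t` is `|TT M D θ ⊓ K|` (`TT M D θ ≤ nz D`). -/
def QH1_stmt : Prop :=
  ∀ (p : ℕ) (M : Ideal (integralClosure ℤ ℂ)), Setup p M → ∀ (G : Type) [Group G] [Finite G]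
    (D K : Subgroup G), IsPGroup p D → (∀ c ∈ D, ∀ d ∈ D, c * d = d * c) → cz D ≤ K →
    ∀ θ ∈ IrrOn (cz D), Good p M D (cz D) θ → ∀ w ∈ cz D, PReg p w → ∀ j : G → ℂ,
    (∀ y, y ∉ K → j y = 0) → (∀ y, IntAt M (j y)) → Inv (cz D) j →
    (∀ y ∈ cz D, InM M (j y - eBl M (cz D) θ y)) →
    CF K (trL K D (fun y => j (y * w⁻¹))) ∧ (∀ y, IntAt M (trL K D (fun y => j (y * w⁻¹)) y)) ∧
    InM M (cc θ (trL K D (fun y => j (y * w⁻¹))) -
      (Nat.card (TT M D θ ⊓ K : Subgroup G) : ℂ) / Nat.card D * (θ w / θ 1))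

/-- **QMT** (medium; from B2, B3 of DI; representation theory; if helper70's QEV (SpecQ1) has the same content use it). `ev ψ j` on `C`. Proof: let `ρ : Representation ℂ K V` afford `ψ`, `E = ∑_{x ∈ K} j x • ρ x`. `cv j j = j` gives `E * E = E`; `Inv C j` gives that `E` commutes with `ρ c`, `c ∈ C`. So the range `W` of
`E` is a representation of `C`, and its character at `c` is `trace (ρ c * E) = ∑_x j x * ψ (c x) = ev ψ j c`. A representation of `C` is a sum of irreducible ones, so its character is `∑_{ψ' ∈ IrrOn C} m ψ' * ψ'` (as in B3 of DI, grep `theorem B3`; multiplicity = dimension of the space of intertwining maps). -/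
def QMT_stmt : Prop :=
  ∀ (G : Type) [Group G] [Finite G] (C K : Subgroup G), C ≤ K → ∀ j : G → ℂ, (∀ y, y ∉ K → j y = 0) →
    cv j j = j → Inv C j → ∀ ψ ∈ IrrOn K, ∃ m : (G → ℂ) → ℕ,
    ∀ c ∈ C, ev ψ j c = ∑ᶠ ψ' ∈ IrrOn C, (m ψ' : ℂ) * ψ' c

/-- **QMB** (short; from QMT, EVM, IDM, B2 of DI). Only the characters of `S` occur in QMT if `cv e j = j`, `e = eS C S`. Proof: `m` from QMT. For `c ∈ C` `ev ψ j c = ev ψ (cv e j) c = ∑_{x ∈ C} e x * ev ψ j (c x)` (direct; `c x ∈ C`), so it is `∑_{ψ'} m ψ' * ∑_x e x * ψ' (c x)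
= ∑_{ψ'} m ψ' * ev ψ' e c = ∑_{ψ' ∈ S} m ψ' * ψ' c` (EVM second item, IDM: `ev ψ' e c = cc ψ' e * ψ' c`). -/
def QMB_stmt : Prop :=
  ∀ (G : Type) [Group G] [Finite G] (C K : Subgroup G), C ≤ K → ∀ j : G → ℂ, (∀ y, y ∉ K → j y = 0) →
    cv j j = j → Inv C j → ∀ S : Set (G → ℂ), S ⊆ IrrOn C → cv (eS C S) j = j → ∀ ψ ∈ IrrOn K,
    ∃ m : (G → ℂ) → ℕ, ∀ c ∈ C, ev ψ j c = ∑ᶠ ψ' ∈ S, (m ψ' : ℂ) * ψ' c

/-- **HTI** (medium; from QH0, QH1, QMB, QCG, QUN, BET, CCI). HEIGHTS. Proof: `C = cz D`; `w`, `n₀ = θ 1`, `n₀ |D| k = |C|` from QCG; `d = ψ 1`. By QMB with `S = Bl M C θ`: `ev ψ j y = ∑_{ψ' ∈ S} m ψ' * ψ' y` for `y ∈ C`; for `p`-regular `y` all `ψ' y = θ y` (`Good.reg`, `θ ∈ S`), so `ev ψ j y = N θ y`,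
`N = ∑_{ψ' ∈ S} m ψ'`; take `y = 1` and `y = w`. Let `q = trL K D (fun y => j (y * w⁻¹))`, `r₁ = (|K| N) / (|D| d)`, `r₂ = |TT M D θ ⊓ K| / (|D| n₀)`. QH0: `cc ψ q = r₁ * θ w`; QH1: `cc θ q - r₂ * θ w` is `InM`; `SBIb` (helper59/FI/Base) for `SB M K ψ θ`: `cc ψ q - cc θ q` is `InM`. So
`(r₁ - r₂) * θ w` is `InM` and, `θ w` being integral and not `InM` (its inverse is `IntAt`), `r₁ - r₂` is `InM`. `|TT M D θ ⊓ K| = |C| * C.relIndex (TT M D θ ⊓ K)`, and this index is prime to `p` (it divides `C.relIndex (TT M D θ)`, BET), so `r₂` is `IntAt` and not `InM` by QUN (`v_p|C| = v_p|D| + v_p n₀`).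
So `r₁` is `IntAt`, not `InM`; in particular `N ≠ 0`, and by QUN `v_p(|K| N) = v_p(|D| d)` (`padicValNat.mul`). -/
def HTI_stmt : Prop :=
  ∀ (p : ℕ) (M : Ideal (integralClosure ℤ ℂ)), Setup p M → ∀ (G : Type) [Group G] [Finite G]
    (D : Subgroup G) (x : G) (θ χ : G → ℂ), Rt p M D x θ χ → ∀ K : Subgroup G, cz D ≤ K →
    ∀ j : G → ℂ, Idm M K j → Inv (cz D) j → cv (eBl M (cz D) θ) j = j →
    (∀ y ∈ cz D, InM M (j y - eBl M (cz D) θ y)) → ∀ ψ ∈ Bl M K θ,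
    ∃ N d : ℕ, N ≠ 0 ∧ d ≠ 0 ∧ ψ 1 = d ∧ ev ψ j 1 = N * θ 1 ∧
      padicValNat p (Nat.card K) + padicValNat p N = padicValNat p (Nat.card D) + padicValNat p d

/-- **QHT** (short; from HTI). Output for the assembly: HTI for `K = L = cz P`, `j = i` (`C ≤ TT M D θ ⊓ L`, so `Inv C i`). -/
def QHT_stmt : Prop :=
  ∀ (p : ℕ) (M : Ideal (integralClosure ℤ ℂ)), Setup p M → ∀ (G : Type) [Group G] [Finite G]
    (D : Subgroup G) (x : G) (θ χ : G → ℂ), Rt p M D x θ χ → ∀ P ≤ D, ∀ i : G → ℂ,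
    QI M D (cz P) θ i → ∀ φ ∈ Bl M (cz P) θ, ∃ N d : ℕ, N ≠ 0 ∧ d ≠ 0 ∧ φ 1 = d ∧
      ev φ i 1 = N * θ 1 ∧
      padicValNat p (Nat.card (cz P)) + padicValNat p N = padicValNat p (Nat.card D) + padicValNat p d

/-! ## 5. The integers `n u` -/

/-- **QN1** (short to medium; from EVM, IDM, SCH, CVF of GR, B2, B3 of DI). `ev φ j u` for `j` supported on `K = Cz L u` with `cv j h = j`, `h = eBl M K θ`. Proof: for `y ∈ K` `φ (u y) = ∑_{ψ ∈ IrrOn K} mt K φ ψ * ψ (u y)` (restriction of `φ` to `K`: B3 of DI for the group `L`, orthogonality B2; see also EVD of SpecC, and `RSM` of helper70's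
SpecQ1 if it exists), and `ψ (u y) = (ψ u / ψ 1) * ψ y` (SCH: `u` is central in `K`). So `ev φ j u = ∑_ψ mt K φ ψ * (ψ u / ψ 1) * ev ψ j 1`. For `ψ ∉ Bl M K θ` `ev ψ j 1 = ev ψ (cv j h) 1 = cc ψ h * ev ψ j 1 = 0` (EVM, IDM). The sum over `Bl M K θ` is `c * dd M K θ φ u`. -/
def QN1_stmt : Prop :=
  ∀ (G : Type) [Group G] [Finite G] (M : Ideal (integralClosure ℤ ℂ)) (L : Subgroup G) (θ : G → ℂ),
    ∀ u ∈ L, ∀ j : G → ℂ, (∀ y, y ∉ Cz L u → j y = 0) → cv j (eBl M (Cz L u) θ) = j → ∀ c : ℂ,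
    (∀ ψ ∈ Bl M (Cz L u) θ, ev ψ j 1 = c) → ∀ φ ∈ IrrOn L, ev φ j u = c * dd M (Cz L u) θ φ u

/-- **QN2** (short to medium; from HTI, HTZ, TRP, B2 of DI). Proof: `K = Cz L u = cz (P ⊔ zpowers u)` (`cz_sup_zpowers`). `Bl M K θ` is not empty (`Good.card`); let `ψ₀` be in it, `N`, `d` from HTI for `K`, `ψ₀`. HTZ (`P ⊔ zpowers u ≤ D`): `Defect p K ψ₀ a`, `|D| = p ^ a`, so `v_p|K| = v_p|D| + v_p d`
and `v_p N = 0`, `N ≠ 0`: `p` does not divide `N`. For `ψ ∈ Bl M K θ`: `ψ`, `ψ₀` are class functions of `K` which agree on the `p`-regular elements (`Good.reg`), so `ev ψ j 1 = ev ψ₀ j 1` by TRP. -/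
def QN2_stmt : Prop :=
  ∀ (p : ℕ) (M : Ideal (integralClosure ℤ ℂ)), Setup p M → ∀ (G : Type) [Group G] [Finite G]
    (D : Subgroup G) (x : G) (θ χ : G → ℂ), Lo0 p M D x θ χ → ∀ P ≤ D, ∀ u ∈ D,
    Good p M D (Cz (cz P) u) θ → ∀ j : G → ℂ, Idm M (Cz (cz P) u) j → Inv (cz D) j →
    cv (eBl M (cz D) θ) j = j → (∀ y ∈ cz D, InM M (j y - eBl M (cz D) θ y)) →
    ∃ N : ℕ, ¬ p ∣ N ∧ ∀ ψ ∈ Bl M (Cz (cz P) u) θ, ev ψ j 1 = N * θ 1

/-- **QN3** (short; from DOR, DDT, B2 of DI). Proof: `L = cz P`. `ev φ i (t u t⁻¹) = ∑_x i x * φ (t u t⁻¹ x) = ∑_x i (t x t⁻¹) * φ (t (u x) t⁻¹) = ev φ i u` (`t ∈ L`, `Inv`). `dd M (Cz L (t u t⁻¹)) θ φ (t u t⁻¹) = dd M (Cz L u) θ φ u` by DDT (`t ∈ cz P ≤ nz P`, `cjF t φ = φ`). By DOR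
(`a = u`) `∑_φ |dd φ u|² = |D| ≠ 0`, so some `φ ∈ Bl M L θ` has `dd M (Cz L u) θ φ u ≠ 0`; compare. -/
def QN3_stmt : Prop :=
  ∀ (p : ℕ) (M : Ideal (integralClosure ℤ ℂ)), Setup p M → ∀ (G : Type) [Group G] [Finite G]
    (D : Subgroup G) (x : G) (θ χ : G → ℂ), Lo0 p M D x θ χ → ∀ P ≤ D, ∀ i : G → ℂ,
    Inv (TT M D θ ⊓ cz P) i → ∀ u ∈ D, Good p M D (Cz (cz P) u) θ → ∀ t ∈ TT M D θ ⊓ cz P,
    ∀ a b : ℂ, (∀ φ ∈ IrrOn (cz P), ev φ i u = a * dd M (Cz (cz P) u) θ φ u) →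
    (∀ φ ∈ IrrOn (cz P), ev φ i (t * u * t⁻¹) =
      b * dd M (Cz (cz P) (t * u * t⁻¹)) θ φ (t * u * t⁻¹)) → a = b

/-- **QNU** (short to medium; from RR1, QN1, QN2, QN3). Output for the assembly. Proof: `L = cz P`, `C = cz D`. For every subgroup `K` of the form `Cz L u`, `u ∈ D`, `¬ Cen L u`, choose `j_K` from `QI.loc` and `N_K` from QN2 for it (`K ≥ C`; on `C` `j ≡ i ≡ e`; `Good` from `GU`); let `n u = N_K` for `K = Cz L u` (choice over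
subgroups, so `n` depends only on `Cz L u`; anything for the other `u`). RR1 for `H = L`, `y = u` (`PEl p u`: `u ∈ D`), `v = 1`, `i`, `i' = j_K` (`Idm M L j_K`; both invariant under `u ∈ D ≤ C ≤ TT M D θ ⊓ L`): `ev φ i u = ev φ j_K u`, and this is `n u * θ 1 * dd M K θ φ u` by QN1 with `c = N_K * θ 1`;
`θ 1 ≠ 0`. `n (t u t⁻¹) = n u`: `t u t⁻¹ ∈ D`, `¬ Cen L (t u t⁻¹)` (`t ∈ L ∩ nz D`), QN3 (`θ 1 ≠ 0`). `n (u ^ s) = n u`: `Cz L (u ^ s) = Cz L u` (`u` is a power of `u ^ s`: `orderOf u` is a power of `p`; BaseQ2 `Cz_pow`). -/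
def QNU_stmt : Prop :=
  ∀ (p : ℕ) (M : Ideal (integralClosure ℤ ℂ)), Setup p M → ∀ (G : Type) [Group G] [Finite G]
    (D : Subgroup G) (x : G) (θ χ : G → ℂ), Lo0 p M D x θ χ → ∀ P ≤ D, GU p M D (cz P) θ →
    ∀ i : G → ℂ, QI M D (cz P) θ i → ∃ n : G → ℤ, ∀ u ∈ D, ¬ Cen (cz P) u →
      ¬ (p : ℤ) ∣ n u ∧
      (∀ φ ∈ IrrOn (cz P), ev φ i u / θ 1 = n u * dd M (Cz (cz P) u) θ φ u) ∧
      (∀ t ∈ TT M D θ ⊓ cz P, n (t * u * t⁻¹) = n u) ∧ ∀ s : ℕ, ¬ p ∣ s → n (u ^ s) = n u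

end Pool.Agent.FI
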