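import Mathlib
import Pool.Agent.helper1.FI.DefsQ2
import Pool.Agent.helper59.FI.Base
import Pool.Agent.helper51.GR.CVF

/-!
# Project fi (MP_baa4d7_al), block Q2: proved calculus (`EqmF`, `rsk`, `cv`, `Inv`, `eBl`, inclusions)
-/

set_option autoImplicit false

namespace Pool.Agent.FI

open Pool.Agent.helper58.DC Pool.Agent.DI Pool.Agent.GR Pool.Agent.OB

section

variable {G : Type} [Group G] {p : ℕ} {M : Ideal (integralClosure ℤ ℂ)}

/-! ### products -/

theorem cv_assoc [Finite G] (a b c : G → ℂ) : cv (cv a b) c = cv a (cv b c) := CVF_assoc a b c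

theorem cv_add [Finite G] (a b c : G → ℂ) : cv a (b + c) = cv a b + cv a c :=
  ((CVF G).2.1 a b c).2.1

theorem add_cv [Finite G] (a b c : G → ℂ) : cv (a + b) c = cv a c + cv b c :=
  ((CVF G).2.1 a b c).1

theorem cv_sub [Finite G] (a b c : G → ℂ) : cv a (b - c) = cv a b - cv a c :=
  ((CVF G).2.1 a b c).2.2.2

theorem sub_cv [Finite G] (a b c : G → ℂ) : cv (a - b) c = cv a c - cv b c :=
  ((CVF G).2.1 a b c).2.2.1

theorem smul_cv [Finite G] (k : ℂ) (a b : G → ℂ) : cv (k • a) b = k • cv a b :=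
  ((CVF G).2.2.1 k a b).1

theorem cv_smul [Finite G] (k : ℂ) (a b : G → ℂ) : cv a (k • b) = k • cv a b :=
  ((CVF G).2.2.1 k a b).2

theorem dl_cv [Finite G] (a : G → ℂ) : cv dl a = a := ((CVF G).2.2.2.1 a).1

theorem cv_dl [Finite G] (a : G → ℂ) : cv a dl = a := ((CVF G).2.2.2.1 a).2

theorem cv_supp [Finite G] {H : Subgroup G} {a b : G → ℂ} (ha : ∀ x, x ∉ H → a x = 0)
    (hb : ∀ x, x ∉ H → b x = 0) : ∀ x, x ∉ H → cv a b x = 0 :=
  fun x hx => CVF_supp H a b ha hb x hx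

theorem cv_comm [Finite G] {H : Subgroup G} {a b : G → ℂ} (ha : CF H a)
    (hb : ∀ x, x ∉ H → b x = 0) : cv a b = cv b a := CVF_comm H a b ha hb

theorem cv_int [Finite G] (h : Setup p M) {a b : G → ℂ} (ha : ∀ x, IntAt M (a x))
    (hb : ∀ x, IntAt M (b x)) : ∀ x, IntAt M (cv a b x) := by
  intro x
  unfold cv
  exact IntAt.finsum h fun y => (ha y).mul h (hb _)

theorem cv_inM_right [Finite G] (h : Setup p M) {a b : G → ℂ} (ha : ∀ x, IntAt M (a x))
    (hb : ∀ x, InM M (b x)) : ∀ x, InM M (cv a b x) := by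
  intro x
  unfold cv
  exact InM.finsum h fun y => InM.mul_left h (ha y) (hb _)

theorem cv_inM_left [Finite G] (h : Setup p M) {a b : G → ℂ} (ha : ∀ x, InM M (a x))
    (hb : ∀ x, IntAt M (b x)) : ∀ x, InM M (cv a b x) := by
  intro x
  unfold cv
  exact InM.finsum h fun y => InM.mul_right h (ha y) (hb _)

/-- A function supported on `C` and a function invariant under `C` commute. -/
theorem cv_comm_Inv [Finite G] {C : Subgroup G} {e a : G → ℂ} (he : ∀ x, x ∉ C → e x = 0)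
    (ha : Inv C a) : cv e a = cv a e := by
  cases nonempty_fintype G
  funext g
  rw [CVF_sum, CVF_sum]
  rw [← Equiv.sum_comp ((Equiv.inv G).trans (Equiv.mulLeft g)) (fun x => a x * e (x⁻¹ * g))]
  apply Finset.sum_congr rfl
  intro y _
  have h1 : ((Equiv.inv G).trans (Equiv.mulLeft g)) y = g * y⁻¹ := rfl
  have h2 : (g * y⁻¹)⁻¹ * g = y := by group
  rw [h1, h2]
  by_cases hy : y ∈ C
  · have h3 := ha y hy (y⁻¹ * g)
    have h4 : y * (y⁻¹ * g) * y⁻¹ = g * y⁻¹ := by group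
    rw [h4] at h3
    rw [h3, mul_comm]
  · rw [he y hy, mul_zero, zero_mul]

/-! ### invariance -/

theorem Inv.cv [Finite G] {S : Subgroup G} {a b : G → ℂ} (ha : Inv S a) (hb : Inv S b) :
    Inv S (cv a b) := fun s hs x => CVF_inv s a b (ha s hs) (hb s hs) x

theorem Inv.mono {S T : Subgroup G} (h : S ≤ T) {a : G → ℂ} (ha : Inv T a) : Inv S a :=
  fun s hs x => ha s (h hs) x

theorem CF.inv {H : Subgroup G} {a : G → ℂ} (h : CF H a) : Inv H a := h.1

theorem Inv_dl (S : Subgroup G) : Inv S (dl : G → ℂ) := by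
  intro s _ x
  unfold dl
  have h : s * x * s⁻¹ = 1 ↔ x = 1 := by
    constructor
    · intro h
      have h1 : x = s⁻¹ * (s * x * s⁻¹) * s := by group
      rw [h1, h]
      group
    · rintro rfl
      group
  by_cases hx : x = 1
  · rw [if_pos hx, if_pos (h.2 hx)]
  · rw [if_neg hx, if_neg fun h1 => hx (h.1 h1)]

theorem dl_supp (K : Subgroup G) : ∀ x, x ∉ K → (dl : G → ℂ) x = 0 := by
  intro x hx
  unfold dl
  refine if_neg fun h => hx ?_
  rw [h]
  exact K.one_mem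

theorem dl_int (h : Setup p M) : ∀ x : G, IntAt M (dl x) := by
  intro x
  rcases CVF_dl x with h1 | h1
  · rw [h1]
    exact IntAt.zero h
  · rw [h1, CVF_dl1]
    exact IntAt.one h

/-! ### `EqmF` -/

theorem EqmF.refl (h : Setup p M) (z : G → ℂ) : EqmF M z z := fun x => by
  rw [sub_self]
  exact InM.zero h

theorem EqmF.of_eq (h : Setup p M) {z w : G → ℂ} (e : z = w) : EqmF M z w := by
  rw [e]
  exact EqmF.refl h w

theorem EqmF.symm {z w : G → ℂ} (e : EqmF M z w) : EqmF M w z := fun x => by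
  have h1 := (e x).neg
  rwa [neg_sub] at h1

theorem EqmF.trans (h : Setup p M) {a b c : G → ℂ} (e : EqmF M a b) (e' : EqmF M b c) : EqmF M a c :=
  fun x => by
    have h1 := (e x).add h (e' x)
    rwa [sub_add_sub_cancel] at h1

theorem EqmF.add (h : Setup p M) {a a' b b' : G → ℂ} (e : EqmF M a a') (e' : EqmF M b b') :
    EqmF M (a + b) (a' + b') := fun x => by
  have h1 := (e x).add h (e' x)
  have h2 : (a + b) x - (a' + b') x = a x - a' x + (b x - b' x) := by
    simp only [Pi.add_apply]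
    ring
  rwa [h2]

theorem EqmF.sub (h : Setup p M) {a a' b b' : G → ℂ} (e : EqmF M a a') (e' : EqmF M b b') :
    EqmF M (a - b) (a' - b') := fun x => by
  have h1 := (e x).sub h (e' x)
  have h2 : (a - b) x - (a' - b') x = a x - a' x - (b x - b' x) := by
    simp only [Pi.sub_apply]
    ring
  rwa [h2]

theorem EqmF.smul (h : Setup p M) {k : ℂ} (hk : IntAt M k) {a a' : G → ℂ} (e : EqmF M a a') :
    EqmF M (k • a) (k • a') := fun x => by
  have h1 := InM.mul_left h hk (e x)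
  have h2 : (k • a) x - (k • a') x = k * (a x - a' x) := by
    simp only [Pi.smul_apply, smul_eq_mul]
    ring
  rwa [h2]

theorem EqmF.sum (h : Setup p M) {ι : Type*} (s : Finset ι) {f g : ι → G → ℂ}
    (e : ∀ i ∈ s, EqmF M (f i) (g i)) : EqmF M (∑ i ∈ s, f i) (∑ i ∈ s, g i) := fun x => by
  rw [Finset.sum_apply, Finset.sum_apply, ← Finset.sum_sub_distrib]
  exact InM.sum h s fun i hi => e i hi x

theorem EqmF.intAt (h : Setup p M) {z w : G → ℂ} (e : EqmF M z w) (hw : ∀ x, IntAt M (w x)) :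
    ∀ x, IntAt M (z x) := fun x => by
  have h1 := (e x).intAt.add h (hw x)
  rwa [sub_add_cancel] at h1

theorem EqmF.cvl [Finite G] (h : Setup p M) {a a' b : G → ℂ} (hb : ∀ x, IntAt M (b x))
    (e : EqmF M a a') : EqmF M (cv a b) (cv a' b) := fun x => by
  have h1 : cv a b x - cv a' b x = cv (a - a') b x := by rw [sub_cv]; rfl
  rw [h1]
  exact cv_inM_left h (fun y => e y) hb x

theorem EqmF.cvr [Finite G] (h : Setup p M) {a b b' : G → ℂ} (ha : ∀ x, IntAt M (a x))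
    (e : EqmF M b b') : EqmF M (cv a b) (cv a b') := fun x => by
  have h1 : cv a b x - cv a b' x = cv a (b - b') x := by rw [cv_sub]; rfl
  rw [h1]
  exact cv_inM_right h ha (fun y => e y) x

/-- Products; `a`, `a'`, `b`, `b'` must be `IntAt`, but it suffices to know it for `a'` and `b`. -/
theorem EqmF.cv [Finite G] (h : Setup p M) {a a' b b' : G → ℂ} (ha' : ∀ x, IntAt M (a' x))
    (hb : ∀ x, IntAt M (b x)) (e : EqmF M a a') (e' : EqmF M b b') :
    EqmF M (DI.cv a b) (DI.cv a' b') :=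
  (EqmF.cvl h hb e).trans h (EqmF.cvr h ha' e')

/-! ### powers and polynomials -/

theorem cvp_zero (a : G → ℂ) : cvp a 0 = dl := rfl

theorem cvp_succ (a : G → ℂ) (n : ℕ) : cvp a (n + 1) = cv (cvp a n) a := rfl

theorem cvp_one [Finite G] (a : G → ℂ) : cvp a 1 = a := by rw [cvp_succ, cvp_zero, dl_cv]

theorem cvp_int [Finite G] (h : Setup p M) {a : G → ℂ} (ha : ∀ x, IntAt M (a x)) (n : ℕ) :
    ∀ x, IntAt M (cvp a n x) := by
  induction n with
  | zero => exact dl_int h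
  | succ n ih => exact cv_int h ih ha

theorem cvp_supp [Finite G] {H : Subgroup G} {a : G → ℂ} (ha : ∀ x, x ∉ H → a x = 0) (n : ℕ) :
    ∀ x, x ∉ H → cvp a n x = 0 := by
  induction n with
  | zero => exact dl_supp H
  | succ n ih => exact cv_supp ih ha

theorem Inv.cvp [Finite G] {S : Subgroup G} {a : G → ℂ} (ha : Inv S a) (n : ℕ) :
    Inv S (OB.cvp a n) := by
  induction n with
  | zero => exact Inv_dl S
  | succ n ih => exact ih.cv ha

/-- Powers of an idempotent. -/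
theorem cvp_idem [Finite G] {e : G → ℂ} (he : cv e e = e) (n : ℕ) : cvp e (n + 1) = e := by
  induction n with
  | zero => exact cvp_one e
  | succ n ih => rw [cvp_succ, ih, he]

theorem EqmF.cvp [Finite G] (h : Setup p M) {a b : G → ℂ} (ha : ∀ x, IntAt M (a x))
    (hb : ∀ x, IntAt M (b x)) (e : EqmF M a b) (n : ℕ) : EqmF M (OB.cvp a n) (OB.cvp b n) := by
  induction n with
  | zero => exact EqmF.refl h _
  | succ n ih => exact EqmF.cv h (cvp_int h hb n) ha ih e

theorem EqmF.plv [Finite G] (h : Setup p M) {a b : G → ℂ} (ha : ∀ x, IntAt M (a x))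
    (hb : ∀ x, IntAt M (b x)) (e : EqmF M a b) (n : ℕ) {c : ℕ → ℂ} (hc : ∀ k, IntAt M (c k)) :
    EqmF M (FI.plv n c a) (FI.plv n c b) := by
  unfold FI.plv
  exact EqmF.sum h _ fun k _ => EqmF.smul h (hc k) (EqmF.cvp h ha hb e (k + 1))

theorem plv_int [Finite G] (h : Setup p M) {a : G → ℂ} (ha : ∀ x, IntAt M (a x)) (n : ℕ) {c : ℕ → ℂ}
    (hc : ∀ k, IntAt M (c k)) : ∀ x, IntAt M (plv n c a x) := by
  intro x
  unfold plv
  rw [Finset.sum_apply]
  exact IntAt.sum h _ fun k _ => (hc k).mul h (cvp_int h ha (k + 1) x)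

theorem plv_supp [Finite G] {H : Subgroup G} {a : G → ℂ} (ha : ∀ x, x ∉ H → a x = 0) (n : ℕ)
    (c : ℕ → ℂ) : ∀ x, x ∉ H → plv n c a x = 0 := by
  intro x hx
  unfold plv
  rw [Finset.sum_apply]
  refine Finset.sum_eq_zero fun k _ => ?_
  rw [Pi.smul_apply, cvp_supp ha (k + 1) x hx, smul_zero]

theorem Inv.plv [Finite G] {S : Subgroup G} {a : G → ℂ} (ha : Inv S a) (n : ℕ) (c : ℕ → ℂ) :
    Inv S (FI.plv n c a) := by
  intro s hs x
  unfold FI.plv
  rw [Finset.sum_apply, Finset.sum_apply]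
  refine Finset.sum_congr rfl fun k _ => ?_
  rw [Pi.smul_apply, Pi.smul_apply, ha.cvp (k + 1) s hs x]

/-! ### restriction -/

theorem rsk_mem {K : Subgroup G} {z : G → ℂ} {x : G} (hx : x ∈ K) : rsk K z x = z x := by
  unfold rsk
  exact if_pos hx

theorem rsk_not {K : Subgroup G} {z : G → ℂ} {x : G} (hx : x ∉ K) : rsk K z x = 0 := by
  unfold rsk
  exact if_neg hx

theorem rsk_supp (K : Subgroup G) (z : G → ℂ) : ∀ x, x ∉ K → rsk K z x = 0 := fun _ hx => rsk_not hx

theorem rsk_int (h : Setup p M) (K : Subgroup G) {z : G → ℂ} (hz : ∀ x, IntAt M (z x)) :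
    ∀ x, IntAt M (rsk K z x) := by
  intro x
  by_cases hx : x ∈ K
  · rw [rsk_mem hx]
    exact hz x
  · rw [rsk_not hx]
    exact IntAt.zero h

theorem rsk_self {K : Subgroup G} {z : G → ℂ} (hz : ∀ x, x ∉ K → z x = 0) : rsk K z = z := by
  funext x
  by_cases hx : x ∈ K
  · exact rsk_mem hx
  · rw [rsk_not hx, hz x hx]

theorem rsk_rsk {K K' : Subgroup G} (hK : K ≤ K') (z : G → ℂ) : rsk K (rsk K' z) = rsk K z := by
  funext x
  by_cases hx : x ∈ K
  · rw [rsk_mem hx, rsk_mem hx, rsk_mem (hK hx)]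
  · rw [rsk_not hx, rsk_not hx]

theorem rsk_add (K : Subgroup G) (z w : G → ℂ) : rsk K (z + w) = rsk K z + rsk K w := by
  funext x
  by_cases hx : x ∈ K
  · rw [Pi.add_apply, rsk_mem hx, rsk_mem hx, rsk_mem hx, Pi.add_apply]
  · rw [Pi.add_apply, rsk_not hx, rsk_not hx, rsk_not hx, add_zero]

theorem rsk_smul (K : Subgroup G) (k : ℂ) (z : G → ℂ) : rsk K (k • z) = k • rsk K z := by
  funext x
  by_cases hx : x ∈ K
  · rw [Pi.smul_apply, rsk_mem hx, rsk_mem hx, Pi.smul_apply]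
  · rw [Pi.smul_apply, rsk_not hx, rsk_not hx, smul_zero]

theorem rsk_sum (K : Subgroup G) {ι : Type*} (s : Finset ι) (f : ι → G → ℂ) :
    rsk K (∑ i ∈ s, f i) = ∑ i ∈ s, rsk K (f i) := by
  funext x
  rw [Finset.sum_apply]
  by_cases hx : x ∈ K
  · rw [rsk_mem hx, Finset.sum_apply]
    exact Finset.sum_congr rfl fun i _ => (rsk_mem hx).symm
  · rw [rsk_not hx]
    exact (Finset.sum_eq_zero fun i _ => rsk_not hx).symm

/-- `S` need only normalise `K`. -/
theorem Inv.rsk {S K : Subgroup G} (hS : S ≤ K) {a : G → ℂ} (ha : Inv S a) : Inv S (FI.rsk K a) := by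
  intro s hs x
  have h1 : s * x * s⁻¹ ∈ K ↔ x ∈ K := by
    constructor
    · intro h
      have h2 := K.mul_mem (K.mul_mem (K.inv_mem (hS hs)) h) (hS hs)
      have h3 : s⁻¹ * (s * x * s⁻¹) * s = x := by group
      rwa [h3] at h2
    · intro h
      exact K.mul_mem (K.mul_mem (hS hs) h) (K.inv_mem (hS hs))
  by_cases hx : x ∈ K
  · rw [rsk_mem hx, rsk_mem (h1.2 hx), ha s hs x]
  · rw [rsk_not hx, rsk_not fun h => hx (h1.1 h)]

theorem EqmF.rsk (h : Setup p M) (K : Subgroup G) {a b : G → ℂ} (e : EqmF M a b) :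
    EqmF M (FI.rsk K a) (FI.rsk K b) := by
  intro x
  by_cases hx : x ∈ K
  · rw [rsk_mem hx, rsk_mem hx]
    exact e x
  · rw [rsk_not hx, rsk_not hx, sub_self]
    exact InM.zero h

theorem EqmF.of_rsk {K : Subgroup G} {a b : G → ℂ} (e : EqmF M (FI.rsk K a) (FI.rsk K b)) :
    ∀ x ∈ K, InM M (a x - b x) := by
  intro x hx
  have h := e x
  rwa [rsk_mem hx, rsk_mem hx] at h

/-- To compare `rsk K a` with a function supported on `K` it suffices to look at the elements of `K`. -/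
theorem EqmF.rsk_of_mem (h : Setup p M) {K : Subgroup G} {a b : G → ℂ} (hb : ∀ x, x ∉ K → b x = 0)
    (e : ∀ x ∈ K, InM M (a x - b x)) : EqmF M (FI.rsk K a) b := by
  intro x
  by_cases hx : x ∈ K
  · rw [rsk_mem hx]
    exact e x hx
  · rw [rsk_not hx, hb x hx, sub_self]
    exact InM.zero h

/-- Multiplication by a function supported on `K` commutes with the restriction to `K`. -/
theorem rsk_cv_left [Finite G] {K : Subgroup G} {e : G → ℂ} (he : ∀ x, x ∉ K → e x = 0) (z : G → ℂ) :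
    rsk K (cv e z) = cv e (rsk K z) := by
  cases nonempty_fintype G
  funext g
  by_cases hg : g ∈ K
  · rw [rsk_mem hg, CVF_sum, CVF_sum]
    refine Finset.sum_congr rfl fun y _ => ?_
    by_cases hy : y ∈ K
    · rw [rsk_mem (K.mul_mem (K.inv_mem hy) hg)]
    · rw [he y hy, zero_mul, zero_mul]
  · rw [rsk_not hg, cv_supp he (rsk_supp K z) g hg]

theorem rsk_cv_right [Finite G] {K : Subgroup G} {e : G → ℂ} (he : ∀ x, x ∉ K → e x = 0) (z : G → ℂ) :
    rsk K (cv z e) = cv (rsk K z) e := by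
  cases nonempty_fintype G
  funext g
  by_cases hg : g ∈ K
  · rw [rsk_mem hg, CVF_sum, CVF_sum]
    refine Finset.sum_congr rfl fun y _ => ?_
    by_cases hy : y ∈ K
    · rw [rsk_mem hy]
    · rw [rsk_not hy]
      have h1 : y⁻¹ * g ∉ K := fun h => hy (by
        have h2 := K.mul_mem hg (K.inv_mem h)
        have h3 : g * (y⁻¹ * g)⁻¹ = y := by group
        rwa [h3] at h2)
      rw [he _ h1, mul_zero, mul_zero]
  · rw [rsk_not hg, cv_supp (rsk_supp K z) he g hg]

/-- The Brauer homomorphism (BRQ) in the form used in block Q2. -/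
theorem BRQ_eqm [Finite G] (hBRQ : BRQ_stmt) (h : Setup p M) {H P K : Subgroup G} (hP : IsPGroup p P)
    (hK : K = H ⊓ cz P) {z w : G → ℂ} (hz : ∀ x, x ∉ H → z x = 0) (hw : ∀ x, x ∉ H → w x = 0)
    (iz : ∀ x, IntAt M (z x)) (iw : ∀ x, IntAt M (w x)) (sz : Inv P z) (sw : Inv P w) :
    EqmF M (rsk K (cv z w)) (cv (rsk K z) (rsk K w)) := by
  subst hK
  exact hBRQ p M h G H P hP z w hz hw iz iw sz sw

/-! ### blocks -/

/-- `Bl M K θ` is a union of blocks of `K`. -/
theorem BC_Bl (M : Ideal (integralClosure ℤ ℂ)) (K : Subgroup G) (θ : G → ℂ) : BC M K (Bl M K θ) := by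
  refine ⟨fun ψ hψ => hψ.1, fun ψ hψ ψ' hψ' h => ⟨hψ', ?_⟩⟩
  have h1 : SB M K ψ ψ' := h
  exact h1.symm.trans hψ.2

theorem Bl_self {M : Ideal (integralClosure ℤ ℂ)} {K : Subgroup G} {θ : G → ℂ} (h : θ ∈ IrrOn K) :
    θ ∈ Bl M K θ := ⟨h, SB.refl K θ⟩

theorem eBl_int [Finite G] (hEIN : EIN_stmt) (h : Setup p M) (K : Subgroup G) (θ : G → ℂ) :
    ∀ x, IntAt M (eBl M K θ x) := hEIN p M h G K _ (BC_Bl M K θ)

theorem eBl_CF [Finite G] (hIDM : IDM_stmt) (M : Ideal (integralClosure ℤ ℂ)) (K : Subgroup G) (θ : G → ℂ) :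
    CF K (eBl M K θ) := (hIDM G K _ (BC_Bl M K θ).sub).1

theorem eBl_supp [Finite G] (hIDM : IDM_stmt) (M : Ideal (integralClosure ℤ ℂ)) (K : Subgroup G) (θ : G → ℂ) :
    ∀ x, x ∉ K → eBl M K θ x = 0 := (eBl_CF hIDM M K θ).2

theorem eBl_idem [Finite G] (hIDM : IDM_stmt) (M : Ideal (integralClosure ℤ ℂ)) (K : Subgroup G) (θ : G → ℂ) :
    cv (eBl M K θ) (eBl M K θ) = eBl M K θ := (hIDM G K _ (BC_Bl M K θ).sub).2.2.1

open Classical in
theorem eBl_cc [Finite G] (hIDM : IDM_stmt) (M : Ideal (integralClosure ℤ ℂ)) (K : Subgroup G) (θ : G → ℂ) {ψ : G → ℂ}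
    (hψ : ψ ∈ IrrOn K) : cc ψ (eBl M K θ) = if ψ ∈ Bl M K θ then 1 else 0 := by
  have h := (hIDM G K _ (BC_Bl M K θ).sub).2.1 ψ hψ
  rw [h]

/-! ### subgroups -/

theorem le_czP {D P : Subgroup G} (hc : ∀ c ∈ D, ∀ d ∈ D, c * d = d * c) (hP : P ≤ D) : D ≤ cz P :=
  (le_cz_of_com hc).trans (cz_mono hP)

theorem czD_le_Cz {D P : Subgroup G} (hP : P ≤ D) {u : G} (hu : u ∈ D) : cz D ≤ Cz (cz P) u := by
  intro x hx
  rw [mem_Cz]
  exact ⟨cz_mono hP hx, (Subgroup.mem_centralizer_iff.1 hx u hu)⟩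

theorem Cz_le (L : Subgroup G) (u : G) : Cz L u ≤ L := inf_le_left

theorem czD_le_TL {M : Ideal (integralClosure ℤ ℂ)} {D P : Subgroup G} {θ : G → ℂ} (hP : P ≤ D) :
    cz D ≤ TT M D θ ⊓ cz P := le_inf cz_le_TT (cz_mono hP)

theorem czD_inf {D P : Subgroup G} (hP : P ≤ D) : cz D = cz P ⊓ cz D :=
  (inf_eq_right.2 (cz_mono hP)).symm

theorem cz_zpowers (u : G) : cz (Subgroup.zpowers u) = Subgroup.centralizer {u} := by
  ext x
  rw [Subgroup.mem_centralizer_iff, Subgroup.mem_centralizer_iff]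
  constructor
  · intro h y hy
    rw [Set.mem_singleton_iff] at hy
    subst hy
    exact h y (Subgroup.mem_zpowers y)
  · intro h y hy
    obtain ⟨k, rfl⟩ := Subgroup.mem_zpowers_iff.1 (SetLike.mem_coe.1 hy)
    have h1 : Commute u x := h u (Set.mem_singleton u)
    exact (h1.zpow_left k).eq

/-- `Cz L u = L ⊓ cz (zpowers u)`, the form needed for BRQ. -/
theorem Cz_eq (L : Subgroup G) (u : G) : Cz L u = L ⊓ cz (Subgroup.zpowers u) := by
  rw [cz_zpowers]
  rfl

theorem zpowers_pgroup {D : Subgroup G} (hD : IsPGroup p D) {u : G} (hu : u ∈ D) :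
    IsPGroup p (Subgroup.zpowers u) := by
  have h1 : Subgroup.zpowers u ≤ D := by
    rw [Subgroup.zpowers_le]
    exact hu
  exact hD.to_le h1

theorem PEl_of_mem {D : Subgroup G} (hD : IsPGroup p D) {u : G} (hu : u ∈ D) : PEl p u := by
  obtain ⟨k, hk⟩ := hD ⟨u, hu⟩
  exact ⟨k, by simpa using congrArg (Subtype.val) hk⟩

/-- `u` and `u ^ s` have the same centraliser if `u` is a `p`-element and `p` does not divide `s`. -/
theorem Cz_pow (hp : p.Prime) {L : Subgroup G} {u : G} (hu : PEl p u) {s : ℕ} (hs : ¬ p ∣ s) :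
    Cz L (u ^ s) = Cz L u := by
  obtain ⟨k, hk⟩ := hu
  have hd : orderOf u ∣ p ^ k := orderOf_dvd_of_pow_eq_one hk
  have hc : Nat.Coprime s (p ^ k) :=
    Nat.Coprime.pow_right k ((Nat.Prime.coprime_iff_not_dvd hp).2 hs).symm
  obtain ⟨m, hm⟩ := exists_pow_eq_self_of_coprime (Nat.Coprime.coprime_dvd_right hd hc)
  ext x
  rw [mem_Cz, mem_Cz]
  constructor
  · rintro ⟨h1, h2⟩
    refine ⟨h1, ?_⟩
    have h3 : Commute (u ^ s) x := h2
    have h4 := h3.pow_left m
    rw [hm] at h4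
    exact h4
  · rintro ⟨h1, h2⟩
    have h3 : Commute u x := h2
    exact ⟨h1, h3.pow_left s⟩

end

end Pool.Agent.FI
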