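import Pool.Agent.helper22.FI.AllA
import Pool.Agent.helper59.FI.AllB
import Pool.Agent.helper58.FI.AllC
import Pool.Agent.helper83.FI.AllR
import Pool.Agent.helper1.FI.SpecQ2
import Pool.Agent.helper1.FIB.QMT
import Pool.Agent.helper1.FIB.QA0
import Pool.Agent.helper14.FIB.QEK
import Pool.Agent.helper68.FIB.QEU
import Pool.Agent.helper9.FIB.QAV
import Pool.Agent.helper92.FIB.QUN
import Pool.Agent.helper42.FIB.QEB
import Pool.Agent.helper39.FIB.QCG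
import Pool.Agent.helper29.FIB.QA1
import Pool.Agent.helper79.FIB.QA2
import Pool.Agent.helper75.FIB.QA3
import Pool.Agent.helper44.FIB.QAA
import Pool.Agent.helper20.FIB.QD1
import Pool.Agent.helper51.FIB.QD2
import Pool.Agent.helper98.FIB.QID
import Pool.Agent.helper67.FIB.QH0
import Pool.Agent.helper28.FIB.QH1
import Pool.Agent.helper65.FIB.HTI
import Pool.Agent.helper18.FIB.QHT
import Pool.Agent.helper48.FIB.QN1
import Pool.Agent.helper57.FIB.QN2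
import Pool.Agent.helper25.FIB.QN3
import Pool.Agent.helper22.FIB.QNU

/-!
# Project fi (MP_baa4d7_al), block Q2: assembly (helper1)

`dXXX`: rows without hypotheses; `eXXX`: rows from `QEV` of block Q1.
-/

set_option autoImplicit false

namespace Pool.Agent.FI.AllQ2

open Pool.Agent Pool.Agent.FI Pool.Agent.GR Pool.Agent.helper58.DC Pool.Agent.DI Pool.Agent.OB

theorem dQAV : QAV_stmt := QAV
theorem dQUN : QUN_stmt := QUN
theorem dQEB : QEB_stmt := QEB AllA.dCJG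
theorem dQCG : QCG_stmt := QCG AllA.dALP AllA.dGDC AllA.dTPR
theorem dQA0 : QA0_stmt :=
  QA0 AllB.dEQR GR.All.dIDM GR.All.dEIN GR.All.dCVF GR.All.dCCI GR.All.dEXP
theorem dQA1 : QA1_stmt := QA1 dQA0 AllR.rBRQ GR.All.dCVF GR.All.dIDM GR.All.dEIN
theorem dQA2 : QA2_stmt := QA2 dQA1 dQA0 AllR.rBRQ GR.All.dCVF GR.All.dIDM GR.All.dEIN
theorem dQA3 : QA3_stmt := QA3 dQEB
theorem dQAA : QAA_stmt := QAA dQA2 dQA3 dQAV AllA.dBET GR.All.dCVF
theorem dQD1 : QD1_stmt := QD1 AllR.rBRQ AllR.rBRK AllR.rPLF GR.All.dCVF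
theorem dQD2 : QD2_stmt := QD2 AllR.rIDP AllR.rSA2 AllR.rBRQ AllR.rBRK AllR.rPLF GR.All.dCVF
theorem dQID : QID_stmt := QID dQAA dQD1 dQD2 AllR.rIDP AllR.rPLF GR.All.dIDM GR.All.dEIN
theorem dQH0 : QH0_stmt := QH0
theorem dQH1 : QH1_stmt := QH1 AllB.dFWB dQAV AllB.dFWV GR.All.dCCI GR.All.dIDM
theorem dQN1 : QN1_stmt := QN1 AllR.rEVM GR.All.dIDM GR.All.dSCH GR.All.dB2 GR.All.dEXP
theorem dQN3 : QN3_stmt := QN3 AllC.cDOR AllC.cDDT
theorem dQEK : QEK_stmt := QEK AllR.rEVM GR.All.dIDM GR.All.dB2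

theorem eQEU (hQEV : QEV_stmt) : QEU_stmt := QEU hQEV dQEK GR.All.dB2

theorem eQMB (hQEV : QEV_stmt) : QMB_stmt := QMB (eQEU hQEV) GR.All.dIDM

theorem eHTI (hQEV : QEV_stmt) : HTI_stmt := HTI dQH0 dQH1 (eQMB hQEV) dQCG dQUN AllA.dBET

theorem eQHT (hQEV : QEV_stmt) : QHT_stmt := QHT (eHTI hQEV)

theorem eQN2 (hQEV : QEV_stmt) : QN2_stmt := QN2 (eHTI hQEV) AllC.cHTZ AllR.rTRP

theorem eQNU (hQEV : QEV_stmt) : QNU_stmt := QNU AllR.rRR1 dQN1 (eQN2 hQEV) dQN3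

end Pool.Agent.FI.AllQ2
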